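import Pool.Agent.Helper7.LQ.Defs

/-!
# Few leaf queries: cutting walks of branching programs and mixing them
-/

namespace Pool.Agent.Helper7.LQ

open Pool.Agent.Helper6.TreeEval

theorem mem_leafWord {h k : ℕ} {B : NBP h k} {l : List B.State} {u : B.State} {p : Node}
    (hu : u ∈ l) (hp : B.label u = Sum.inl (Query.leaf p)) : p ∈ leafWord B l := by
  unfold leafWord
  rw [List.mem_filterMap]
  refine ⟨u, hu, ?_⟩
  rw [hp]

theorem exists_cut {h k : ℕ} (B : NBP h k) (I : Inst k) (A A' : Node → Prop) (m : ℕ) (o : Bool)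
    (l : List B.State) (s t : B.State) (hl : B.Walk I s l t)
    (hs : Segs A A' (m + 1) o (leafWord B l)) :
    ∃ cs : List B.State, cs.length = m ∧ Cut B I A A' o s cs t := by
  induction m generalizing o l s with
  | zero =>
    obtain ⟨P, R, hPR, hP, hR⟩ := hs
    have hR' : R = [] := hR
    rw [hR', List.append_nil] at hPR
    refine ⟨[], rfl, l, hl, ?_⟩
    intro u hu p hp hlab
    exact hP p (hPR ▸ mem_leafWord hu hlab) hp
  | succ m ih =>
    obtain ⟨P, R, hPR, hP, hR⟩ := hs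
    unfold leafWord at hPR
    rw [List.filterMap_eq_append_iff] at hPR
    obtain ⟨l₁, l₂, rfl, h1, h2⟩ := hPR
    obtain ⟨c, hc1, hc2⟩ := hl.split
    have hR' : Segs A A' (m + 1) (!o) (leafWord B l₂) := by
      unfold leafWord
      rw [h2]
      exact hR
    obtain ⟨cs, hcs, hcut⟩ := ih (!o) l₂ c hc2 hR'
    refine ⟨c :: cs, by simp [hcs], ⟨l₁, hc1, ?_⟩, hcut⟩
    intro u hu p hp hlab
    have hmem : p ∈ leafWord B l₁ := mem_leafWord hu hlab
    unfold leafWord at hmem
    rw [h1] at hmem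
    exact hP p hmem hp

theorem Seg.toWalk {h k : ℕ} {B : NBP h k} {I Im : Inst k} {A : Node → Prop}
    (hI : ∀ q : Query k, (∀ p, A p → q ≠ Query.leaf p) → I.answer q = Im.answer q)
    {s t : B.State} (hs : Seg B I A s t) : ∃ l, B.Walk Im s l t := by
  obtain ⟨l, hl, hA⟩ := hs
  refine ⟨l, hl.congr ?_⟩
  intro u hu q hq
  refine hI q fun p hp hqp => ?_
  exact hA u hu p hp (by rw [hq, hqp])

theorem mix {h k : ℕ} (B : NBP h k) (Ix Iy Im : Inst k) (A A' : Node → Prop)
    (hx : ∀ q : Query k, (∀ p, A' p → q ≠ Query.leaf p) → Ix.answer q = Im.answer q)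
    (hy : ∀ q : Query k, (∀ p, A p → q ≠ Query.leaf p) → Iy.answer q = Im.answer q)
    (o : Bool) (s : B.State) (cs : List B.State) (t t' : B.State)
    (h1 : Cut B Ix A A' o s cs t) (h2 : Cut B Iy A A' o s cs t') :
    ∃ l t'', (t'' = t ∨ t'' = t') ∧ B.Walk Im s l t'' := by
  induction cs generalizing o s with
  | nil =>
    cases o with
    | true =>
      obtain ⟨l, hl⟩ := Seg.toWalk (Im := Im) (by simpa using hx) h1
      exact ⟨l, t, Or.inl rfl, hl⟩
    | false =>
      obtain ⟨l, hl⟩ := Seg.toWalk (Im := Im) (by simpa using hy) h2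
      exact ⟨l, t', Or.inr rfl, hl⟩
  | cons c cs ih =>
    obtain ⟨h1a, h1b⟩ := h1
    obtain ⟨h2a, h2b⟩ := h2
    obtain ⟨l, t'', ht, hl⟩ := ih (!o) c h1b h2b
    cases o with
    | true =>
      obtain ⟨l', hl'⟩ := Seg.toWalk (Im := Im) (by simpa using hx) h1a
      exact ⟨l' ++ l, t'', ht, hl'.append hl⟩
    | false =>
      obtain ⟨l', hl'⟩ := Seg.toWalk (Im := Im) (by simpa using hy) h2a
      exact ⟨l' ++ l, t'', ht, hl'.append hl⟩

end Pool.Agent.Helper7.LQ
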