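import Pool.Agent.Helper77.LQ.Canon
import Pool.Agent.Helper18.LQ.Sep

/-!
# Few leaf queries: the greedy chain
-/

namespace Pool.Agent.Helper7.LQ

open Pool.Agent.Helper6.TreeEval Pool.Agent.Helper18.LQ

theorem swp_swp (ω : List Bool) : swp (swp ω) = ω := by
  unfold swp
  simp [List.map_map, Function.comp_def]

theorem headI_swp {ω : List Bool} (h : ω ≠ []) : (swp ω).headI = !ω.headI := by
  cases ω with
  | nil => exact absurd rfl h
  | cons a l => rfl

theorem canon_swp {ω : List Bool} (h : ω ≠ []) : canon (swp ω) = canon ω := by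
  unfold canon
  rw [headI_swp h, swp_swp]
  cases ω.headI <;> simp

theorem length_swp (ω : List Bool) : (swp ω).length = ω.length := by
  unfold swp
  simp

theorem pat_swp {α : Type} [DecidableEq α] (W : List α) {x y : α} (hxy : x ≠ y) :
    pat W y x = swp (pat W x y) := by
  unfold pat swp
  rw [List.map_map]
  have h1 : (W.filter fun z => decide (z = y ∨ z = x)) = W.filter fun z => decide (z = x ∨ z = y) := by
    apply List.filter_congr
    intro z _
    simp only [or_comm]
  rw [h1]
  apply List.map_congr_left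
  intro z hz
  rw [List.mem_filter] at hz
  have hz2 : z = x ∨ z = y := by simpa using hz.2
  rcases hz2 with rfl | rfl
  · simp [hxy]
  · simp [hxy.symm]

theorem greedy (W : List Node) (ρ : ℕ) (hρ : 1 ≤ ρ) (j : ℕ) (u : Node) (X : Finset Node)
    (hX : ∀ x ∈ X, (∃ w : Node, w.length = j ∧ x = w ++ u) ∧ W.count x = ρ)
    (σ : List Bool → Bool) :
    ∃ L : List (Node × List Bool), Chain (L.map Prod.fst) j u ∧ (∀ x ∈ L, x.1 ∈ X) ∧
      (∀ x ∈ L, x.2.length = 2 * ρ) ∧ L.Pairwise (fun x y => pat W x.1 y.1 = x.2) ∧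
      AltSign σ L ∧ X.card * 7 ^ j ≤ 8 ^ j * (8 * 4 ^ ρ) ^ L.length := by
  classical
  induction j generalizing u X σ with
  | zero =>
    refine ⟨[], Chain.nil _ _, by simp, by simp, List.Pairwise.nil, trivial, ?_⟩
    have hsub : X ⊆ {u} := by
      intro x hx
      obtain ⟨⟨w, hw, rfl⟩, _⟩ := hX x hx
      have : w = [] := List.length_eq_zero_iff.1 hw
      simp [this]
    have := Finset.card_le_card hsub
    simpa using this
  | succ j ih =>
    set P : Bool → Node → Prop := fun b x => ∃ w : Node, w.length = j ∧ x = w ++ b :: u with hP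
    set X' : Bool → Finset Node := fun b => X.filter fun x => P b x with hX'
    have hXb : ∀ b, ∀ x ∈ X' b, (∃ w : Node, w.length = j ∧ x = w ++ b :: u) ∧ W.count x = ρ := by
      intro b x hx
      rw [hX', Finset.mem_filter] at hx
      exact ⟨hx.2, (hX x hx.1).2⟩
    have hsub : ∀ b, X' b ⊆ X := fun b => Finset.filter_subset _ _
    have hdisj : Disjoint (X' false) (X' true) := by
      rw [Finset.disjoint_left]
      intro x h0 h1
      obtain ⟨⟨w, hw, hx⟩, _⟩ := hXb _ x h0
      obtain ⟨⟨w', hw', hx'⟩, _⟩ := hXb _ x h1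
      rw [hx] at hx'
      have := (List.append_inj hx' (by rw [hw, hw'])).2
      simp at this
    have hunion : X = X' false ∪ X' true := by
      ext x
      rw [Finset.mem_union]
      constructor
      · intro hx
        obtain ⟨⟨w, hw, hxw⟩, _⟩ := hX x hx
        have hne : w ≠ [] := by
          intro h
          simp [h] at hw
        have hdl : w = w.dropLast ++ [w.getLast hne] := (List.dropLast_append_getLast hne).symm
        have hlen : w.dropLast.length = j := by simp [hw]
        have hmem : ∀ b, w.getLast hne = b → x ∈ X' b := by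
          intro b hb
          rw [hX', Finset.mem_filter]
          refine ⟨hx, w.dropLast, hlen, ?_⟩
          rw [hxw]
          conv_lhs => rw [hdl]
          rw [hb]
          simp
        cases hb : w.getLast hne with
        | false => exact Or.inl (hmem _ hb)
        | true => exact Or.inr (hmem _ hb)
      · rintro (h | h)
        · exact hsub _ h
        · exact hsub _ h
    have hcard : X.card = (X' false).card + (X' true).card := by
      conv_lhs => rw [hunion]
      exact Finset.card_union_of_disjoint hdisj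
    -- going to the child `b` without recording
    have hskip : ∀ b, 7 * X.card ≤ 8 * (X' b).card →
        ∃ L : List (Node × List Bool), Chain (L.map Prod.fst) (j + 1) u ∧ (∀ x ∈ L, x.1 ∈ X) ∧
          (∀ x ∈ L, x.2.length = 2 * ρ) ∧ L.Pairwise (fun x y => pat W x.1 y.1 = x.2) ∧
          AltSign σ L ∧ X.card * 7 ^ (j + 1) ≤ 8 ^ (j + 1) * (8 * 4 ^ ρ) ^ L.length := by
      intro b hb
      obtain ⟨L, h1, h2, h3, h4, h5, h6⟩ := ih (b :: u) (X' b) (hXb b) σ
      refine ⟨L, Chain.skip b h1, fun x hx => hsub b (h2 x hx), h3, h4, h5, ?_⟩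
      calc X.card * 7 ^ (j + 1) = 7 * X.card * 7 ^ j := by ring
        _ ≤ 8 * (X' b).card * 7 ^ j := Nat.mul_le_mul_right _ hb
        _ = 8 * ((X' b).card * 7 ^ j) := by ring
        _ ≤ 8 * (8 ^ j * (8 * 4 ^ ρ) ^ L.length) := Nat.mul_le_mul_left _ h6
        _ = 8 ^ (j + 1) * (8 * 4 ^ ρ) ^ L.length := by ring
    by_cases hc0 : 8 * (X' false).card ≤ X.card
    · exact hskip true (by omega)
    by_cases hc1 : 8 * (X' true).card ≤ X.card
    · exact hskip false (by omega)
    push Not at hc0 hc1
    have hbeq : (instBEqOfDecidableEq : BEq Node) = List.instBEq := lawful_beq_subsingleton _ _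
    obtain ⟨Y₀, Y₁, ω, hY0, hY1, hc0', hc1', hω, hpat⟩ := separation W ρ (X' false) (X' true) hdisj
      (fun x hx => by rw [hbeq]; exact (hXb _ x hx).2)
      (fun x hx => by rw [hbeq]; exact (hXb _ x hx).2)
    have hω0 : ω ≠ [] := by
      rintro rfl
      simp at hω
      omega
    have hne0 : Y₀.Nonempty := by
      rw [Finset.nonempty_iff_ne_empty]
      rintro rfl
      simp at hc0'
      simp [hc0'] at hc0
    have hne1 : Y₁.Nonempty := by
      rw [Finset.nonempty_iff_ne_empty]
      rintro rfl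
      simp at hc1'
      simp [hc1'] at hc1
    -- going to the child `b` and recording `e`
    have hrec : ∀ (b : Bool) (e : Node) (Y : Finset Node) (τ : List Bool), e ∈ X' (!b) → Y ⊆ X' b →
        X.card ≤ 8 * 4 ^ ρ * Y.card → τ.length = 2 * ρ → (∀ y ∈ Y, pat W e y = τ) →
        τ.headI = σ (canon τ) →
        ∃ L : List (Node × List Bool), Chain (L.map Prod.fst) (j + 1) u ∧ (∀ x ∈ L, x.1 ∈ X) ∧
          (∀ x ∈ L, x.2.length = 2 * ρ) ∧ L.Pairwise (fun x y => pat W x.1 y.1 = x.2) ∧
          AltSign σ L ∧ X.card * 7 ^ (j + 1) ≤ 8 ^ (j + 1) * (8 * 4 ^ ρ) ^ L.length := by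
      intro b e Y τ he hY hcY hτ hpe hσ
      obtain ⟨L, h1, h2, h3, h4, h5, h6⟩ := ih (b :: u) Y (fun x hx => hXb b x (hY hx))
        (Function.update σ (canon τ) (!(σ (canon τ))))
      obtain ⟨⟨w, hw, hew⟩, _⟩ := hXb _ e he
      refine ⟨(e, τ) :: L, ?_, ?_, ?_, ?_, ⟨hσ, h5⟩, ?_⟩
      · rw [List.map_cons]
        simp only [hew]
        exact Chain.record b w hw h1
      · intro x hx
        rcases List.mem_cons.1 hx with rfl | hx
        · exact hsub _ he
        · exact hsub b (hY (h2 x hx))
      · intro x hx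
        rcases List.mem_cons.1 hx with rfl | hx
        · exact hτ
        · exact h3 x hx
      · rw [List.pairwise_cons]
        exact ⟨fun y hy => hpe _ (h2 y hy), h4⟩
      · calc X.card * 7 ^ (j + 1) ≤ (8 * 4 ^ ρ * Y.card) * 7 ^ (j + 1) :=
              Nat.mul_le_mul_right _ hcY
          _ = 7 * (8 * 4 ^ ρ) * (Y.card * 7 ^ j) := by ring
          _ ≤ 8 * (8 * 4 ^ ρ) * (8 ^ j * (8 * 4 ^ ρ) ^ L.length) :=
              Nat.mul_le_mul (Nat.mul_le_mul_right _ (by norm_num)) h6
          _ = 8 ^ (j + 1) * (8 * 4 ^ ρ) ^ ((e, τ) :: L).length := by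
              rw [List.length_cons]
              ring
    by_cases hsgn : ω.headI = σ (canon ω)
    · obtain ⟨e, he⟩ := hne0
      refine hrec true e Y₁ ω (hY0 he) hY1 ?_ hω (fun y hy => hpat e he y hy) hsgn
      calc X.card ≤ 8 * (X' true).card := hc1.le
        _ ≤ 8 * (4 ^ ρ * Y₁.card) := Nat.mul_le_mul_left _ hc1'
        _ = 8 * 4 ^ ρ * Y₁.card := by ring
    · obtain ⟨e, he⟩ := hne1
      refine hrec false e Y₀ (swp ω) (hY1 he) hY0 ?_ (by rw [length_swp, hω]) ?_ ?_
      · calc X.card ≤ 8 * (X' false).card := hc0.le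
          _ ≤ 8 * (4 ^ ρ * Y₀.card) := Nat.mul_le_mul_left _ hc0'
          _ = 8 * 4 ^ ρ * Y₀.card := by ring
      · intro y hy
        have hye : y ≠ e := by
          rintro rfl
          exact Finset.disjoint_left.1 hdisj (hY0 hy) (hY1 he)
        rw [pat_swp W hye, hpat y hy e he]
      · rw [headI_swp hω0, canon_swp hω0]
        revert hsgn
        cases ω.headI <;> cases σ (canon ω) <;> simp

end Pool.Agent.Helper7.LQ
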